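import Pool.Agent.Y862.SQ.Stm

set_option autoImplicit false

/-!
# The small primes (job SQ-SMALL), adapted from `Pool/Agent/TH464/PO/Small.lean`
-/

namespace Pool.Agent.Y681.SQ

open Finset Pool.Agent.Y862.SQ

/-- the period -/
def Mw (w : ℕ) : ℕ := ∏ p ∈ pr w, p

lemma mem_pr {w p : ℕ} : p ∈ pr w ↔ p ≤ w ∧ p.Prime := by
  unfold pr
  rw [mem_filter, mem_Icc]
  exact ⟨fun h => ⟨h.1.2, h.2⟩, fun h => ⟨⟨h.2.pos, h.1⟩, h.2⟩⟩

lemma Mw_pos (w : ℕ) : 0 < Mw w := Finset.prod_pos fun p hp => (mem_pr.1 hp).2.pos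

/-- the Chinese remainder theorem -/
lemma crt (G : ℕ → ℕ → Prop) [∀ p, DecidablePred (G p)] (S : Finset ℕ) (hS : ∀ p ∈ S, p.Prime)
    (hG : ∀ p ∈ S, ∀ n, G p (n % p) ↔ G p n) :
    ((range (∏ p ∈ S, p)).filter (fun n => ∀ p ∈ S, G p n)).card =
      ∏ p ∈ S, ((range p).filter (fun r => G p r)).card := by
  induction S using Finset.induction_on with
  | empty => simp
  | insert q S hq ih =>
    have hS' : ∀ p ∈ S, p.Prime := fun p hp => hS p (mem_insert_of_mem hp)
    have hG' : ∀ p ∈ S, ∀ n, G p (n % p) ↔ G p n := fun p hp => hG p (mem_insert_of_mem hp)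
    rw [prod_insert hq, prod_insert hq, ← ih hS' hG']
    obtain ⟨M, hM⟩ : ∃ M, M = ∏ p ∈ S, p := ⟨_, rfl⟩
    rw [← hM]
    have hqp : q.Prime := hS q (mem_insert_self q S)
    have hMpos : 0 < M := by rw [hM]; exact Finset.prod_pos fun p hp => (hS' p hp).pos
    have hqM : Nat.Coprime q M := by
      rw [hM]
      refine Nat.Coprime.prod_right fun p hp => ?_
      rw [Nat.coprime_primes hqp (hS' p hp)]
      rintro rfl
      exact hq hp
    have hdvd : ∀ p ∈ S, p ∣ M := fun p hp => by rw [hM]; exact Finset.dvd_prod_of_mem _ hp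
    have hmod : ∀ p ∈ S, ∀ n, G p (n % M) ↔ G p n := by
      intro p hp n
      rw [← hG' p hp (n % M), Nat.mod_mod_of_dvd _ (hdvd p hp), hG' p hp n]
    rw [← card_product]
    apply Finset.card_bij (fun n _ => (n % q, n % M))
    · intro n hn
      rw [mem_filter, mem_range] at hn
      rw [mem_product, mem_filter, mem_filter, mem_range, mem_range]
      refine ⟨⟨Nat.mod_lt _ hqp.pos, ?_⟩, Nat.mod_lt _ hMpos, ?_⟩
      · rw [hG q (mem_insert_self q S)]
        exact hn.2 q (mem_insert_self q S)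
      · intro p hp
        rw [hmod p hp]
        exact hn.2 p (mem_insert_of_mem hp)
    · intro a ha b hb hab
      rw [mem_filter, mem_range] at ha hb
      have h1 : a ≡ b [MOD q] := congrArg Prod.fst hab
      have h2 : a ≡ b [MOD M] := congrArg Prod.snd hab
      have h3 : a ≡ b [MOD q * M] := (Nat.modEq_and_modEq_iff_modEq_mul hqM).1 ⟨h1, h2⟩
      exact Nat.ModEq.eq_of_lt_of_lt h3 ha.1 hb.1
    · rintro ⟨a, b⟩ hab
      rw [mem_product, mem_filter, mem_filter, mem_range, mem_range] at hab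
      obtain ⟨⟨ha1, ha2⟩, hb1, hb2⟩ := hab
      obtain ⟨x, hx1, hx2⟩ := Nat.chineseRemainder hqM a b
      have e1 : (x % (q * M)) % q = a := by
        rw [Nat.mod_mod_of_dvd _ (dvd_mul_right q M)]
        have h3 : x % q = a % q := hx1
        rw [h3, Nat.mod_eq_of_lt ha1]
      have e2 : (x % (q * M)) % M = b := by
        rw [Nat.mod_mod_of_dvd _ (dvd_mul_left M q)]
        have h3 : x % M = b % M := hx2
        rw [h3, Nat.mod_eq_of_lt hb1]
      refine ⟨x % (q * M), ?_, ?_⟩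
      · rw [mem_filter, mem_range]
        refine ⟨Nat.mod_lt _ (Nat.mul_pos hqp.pos hMpos), ?_⟩
        intro p hp
        rcases mem_insert.1 hp with rfl | hp
        · rw [← hG p (mem_insert_self p S), e1]
          exact ha2
        · rw [← hmod p hp, e2]
          exact hb2 p hp
      · show ((x % (q * M)) % q, (x % (q * M)) % M) = (a, b)
        rw [e1, e2]

lemma card_compl (G : ℕ → Prop) [DecidablePred G] (p : ℕ) :
    (((range p).filter (fun r => ¬ G r)).card : ℝ) =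
      p - (((range p).filter (fun r => G r)).card : ℝ) := by
  have := Finset.card_filter_add_card_filter_not (s := range p) (fun a => G a)
  rw [card_range] at this
  have h2 : ((((range p).filter (fun r => G r)).card : ℕ) : ℝ) +
      (((range p).filter (fun r => ¬ G r)).card : ℝ) = p := by exact_mod_cast this
  linarith

/-- exact density for a set -/
lemma exactH (H : Finset ℕ) (w : ℕ) :
    (((range (Mw w)).filter (fun n => ∀ p ∈ pr w, ¬ ∃ h ∈ H, p ∣ n ^ 2 + h)).card : ℝ) =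
      Mw w * VH H w := by
  have h1 := crt (fun p n => ¬ ∃ h ∈ H, p ∣ n ^ 2 + h) (pr w) (fun p hp => (mem_pr.1 hp).2) (by
    intro p _ n
    apply not_congr
    apply exists_congr
    intro h
    apply and_congr_right
    intro _
    have h2 : (n % p) ^ 2 + h ≡ n ^ 2 + h [MOD p] :=
      Nat.ModEq.add_right _ ((Nat.mod_modEq n p).pow 2)
    exact h2.dvd_iff (dvd_refl p))
  have h2 : (((range (Mw w)).filter (fun n => ∀ p ∈ pr w, ¬ ∃ h ∈ H, p ∣ n ^ 2 + h)).card : ℝ) =
      ∏ p ∈ pr w, (((range p).filter (fun n => ¬ ∃ h ∈ H, p ∣ n ^ 2 + h)).card : ℝ) := by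
    unfold Mw
    exact_mod_cast h1
  rw [h2]
  unfold Mw VH
  rw [Nat.cast_prod, ← Finset.prod_mul_distrib]
  apply Finset.prod_congr rfl
  intro p hp
  have hp0 : (p : ℝ) ≠ 0 := by exact_mod_cast (mem_pr.1 hp).2.ne_zero
  rw [card_compl (fun n => ∃ h ∈ H, p ∣ n ^ 2 + h) p]
  unfold rH
  field_simp

/-- exact density -/
lemma exact1 (w : ℕ) :
    (((range (Mw w)).filter (fun n => ∀ p ∈ pr w, ¬ p ∣ n)).card : ℝ) = Mw w * V1 w := by
  have h1 := crt (fun p n => ¬ p ∣ n) (pr w) (fun p hp => (mem_pr.1 hp).2) (by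
    intro p _ n
    apply not_congr
    exact (Nat.mod_modEq n p).dvd_iff (dvd_refl p))
  have h2 : (((range (Mw w)).filter (fun n => ∀ p ∈ pr w, ¬ p ∣ n)).card : ℝ) =
      ∏ p ∈ pr w, (((range p).filter (fun n => ¬ p ∣ n)).card : ℝ) := by
    unfold Mw
    exact_mod_cast h1
  rw [h2]
  unfold Mw V1
  rw [Nat.cast_prod, ← Finset.prod_mul_distrib]
  apply Finset.prod_congr rfl
  intro p hp
  have hpp := (mem_pr.1 hp).2
  have hp0 : (p : ℝ) ≠ 0 := by exact_mod_cast hpp.ne_zero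
  rw [card_compl (fun n => p ∣ n) p]
  have h3 : (range p).filter (fun r => p ∣ r) = {0} := by
    ext r
    rw [mem_filter, mem_range, mem_singleton]
    constructor
    · rintro ⟨a1, a2⟩
      exact Nat.eq_zero_of_dvd_of_lt a2 a1
    · rintro rfl
      exact ⟨hpp.pos, dvd_zero p⟩
  rw [h3, card_singleton]
  field_simp
  simp

lemma per1 (w : ℕ) : Function.Periodic (fun m => ∀ p ∈ pr w, ¬ p ∣ m) (Mw w) := by
  intro m
  apply propext
  apply forall_congr'
  intro p
  apply forall_congr'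
  intro hp
  have hd : p ∣ Mw w := Finset.dvd_prod_of_mem _ hp
  apply not_congr
  exact (Nat.dvd_add_left hd)

/-- number of sifted integers in an interval consisting of full periods -/
lemma count_mul (P : ℕ → Prop) [DecidablePred P] (M : ℕ) (hP : Function.Periodic P M) (n t : ℕ) :
    ((Ico n (n + M * t)).filter P).card = t * ((range M).filter P).card := by
  induction t with
  | zero => simp
  | succ t ih =>
    have h1 : Ico n (n + M * (t + 1)) = Ico n (n + M * t) ∪ Ico (n + M * t) (n + M * t + M) := by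
      rw [Ico_union_Ico_eq_Ico (by omega) (by omega)]
      congr 1
      ring
    rw [h1, Finset.filter_union, card_union_of_disjoint, ih]
    · have h2 := Nat.filter_Ico_card_eq_of_periodic (n + M * t) M P hP
      have h3 := Nat.filter_Ico_card_eq_of_periodic 0 M P hP
      rw [zero_add, Nat.Ico_zero_eq_range] at h3
      rw [h2, ← h3]
      ring
    · apply Finset.disjoint_filter_filter
      rw [Finset.disjoint_left]
      intro x hx hx'
      rw [mem_Ico] at hx hx'
      omega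

lemma fac_nonneg {w p : ℕ} (hp : p ∈ pr w) : 0 < 1 - 1 / (p : ℝ) := by
  have h2 : (1 : ℝ) < p := by exact_mod_cast (mem_pr.1 hp).2.one_lt
  have h3 : 1 / (p : ℝ) < 1 := by
    rw [div_lt_one (by linarith)]
    exact h2
  linarith

lemma V1_pos (w : ℕ) : 0 < V1 w := Finset.prod_pos fun p hp => fac_nonneg hp

lemma V1_le_one (w : ℕ) : V1 w ≤ 1 := by
  apply Finset.prod_le_one
  · intro p hp
    exact (fac_nonneg hp).le
  · intro p hp
    have : 0 ≤ 1 / (p : ℝ) := by positivity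
    linarith

/-- the number of sifted integers in a window -/
lemma window (w m T : ℕ) :
    |((((Icc 1 T).filter (fun h => ∀ p ∈ pr w, ¬ p ∣ m + h)).card : ℕ) : ℝ) - T * V1 w| ≤ Mw w := by
  obtain ⟨M, hM⟩ : ∃ M, M = Mw w := ⟨_, rfl⟩
  have hMpos : 0 < M := by rw [hM]; exact Mw_pos w
  have hex := exact1 w
  rw [← hM] at hex ⊢
  have hper : Function.Periodic (fun m => ∀ p ∈ pr w, ¬ p ∣ m) M := by rw [hM]; exact per1 w
  have h0 : ((Icc 1 T).filter (fun h => ∀ p ∈ pr w, ¬ p ∣ m + h)).card =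
      ((Ico (m + 1) (m + 1 + T)).filter (fun n => ∀ p ∈ pr w, ¬ p ∣ n)).card := by
    apply Finset.card_bij (fun h _ => m + h)
    · intro h hh
      rw [mem_filter, mem_Icc] at hh
      rw [mem_filter, mem_Ico]
      exact ⟨by omega, hh.2⟩
    · intro a _ b _ hab
      omega
    · intro n hn
      rw [mem_filter, mem_Ico] at hn
      have e : m + (n - m) = n := by omega
      exact ⟨n - m, by rw [mem_filter, mem_Icc, e]; exact ⟨by omega, hn.2⟩, e⟩
  rw [h0]
  obtain ⟨a, b, hab, hb⟩ : ∃ a b, T = M * a + b ∧ b < M :=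
    ⟨T / M, T % M, (Nat.div_add_mod T M).symm, Nat.mod_lt _ hMpos⟩
  have h1 := count_mul (fun m => ∀ p ∈ pr w, ¬ p ∣ m) M hper (m + 1) a
  have h2 := count_mul (fun m => ∀ p ∈ pr w, ¬ p ∣ m) M hper (m + 1) (a + 1)
  obtain ⟨N0, hN0⟩ : ∃ N, N = ((range M).filter (fun m => ∀ p ∈ pr w, ¬ p ∣ m)).card := ⟨_, rfl⟩
  rw [← hN0] at h1 h2 hex
  have h3 : a * N0 ≤ ((Ico (m + 1) (m + 1 + T)).filter (fun n => ∀ p ∈ pr w, ¬ p ∣ n)).card := by
    rw [← h1]
    apply card_le_card
    apply Finset.filter_subset_filter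
    apply Ico_subset_Ico_right
    omega
  have h4 : ((Ico (m + 1) (m + 1 + T)).filter (fun n => ∀ p ∈ pr w, ¬ p ∣ n)).card ≤
      (a + 1) * N0 := by
    rw [← h2]
    apply card_le_card
    apply Finset.filter_subset_filter
    apply Ico_subset_Ico_right
    rw [hab]
    nlinarith
  have h3' : (a : ℝ) * N0 ≤
      (((Ico (m + 1) (m + 1 + T)).filter (fun n => ∀ p ∈ pr w, ¬ p ∣ n)).card : ℝ) := by
    exact_mod_cast h3
  have h4' : (((Ico (m + 1) (m + 1 + T)).filter (fun n => ∀ p ∈ pr w, ¬ p ∣ n)).card : ℝ) ≤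
      (a + 1) * N0 := by
    exact_mod_cast h4
  rw [hex] at h3' h4'
  have hMr : (0 : ℝ) < M := by exact_mod_cast hMpos
  have hV0 : 0 ≤ V1 w := (V1_pos w).le
  have hV1 : V1 w ≤ 1 := V1_le_one w
  have hbr : (b : ℝ) ≤ M := by exact_mod_cast hb.le
  have hb0 : (0 : ℝ) ≤ b := Nat.cast_nonneg b
  have hTr : (T : ℝ) = M * a + b := by rw [hab]; push_cast; ring
  rw [hTr, abs_le]
  have e1 : (b : ℝ) * V1 w ≤ M := by nlinarith
  have e2 : 0 ≤ (b : ℝ) * V1 w := by positivity
  have e3 : (M : ℝ) * V1 w ≤ M := by nlinarith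
  constructor
  · linarith
  · linarith

/-- the average over the sets, as an average over a period -/
lemma sum_sets (w k T : ℕ) :
    (Mw w : ℝ) * ∑ H ∈ powersetCard k (Icc 1 T), VH H w =
      ∑ n ∈ range (Mw w),
        ((((Icc 1 T).filter (fun h => ∀ p ∈ pr w, ¬ p ∣ n ^ 2 + h)).card.choose k : ℕ) : ℝ) := by
  rw [Finset.mul_sum]
  have h1 : ∀ H ∈ powersetCard k (Icc 1 T), (Mw w : ℝ) * VH H w =
      ∑ n ∈ range (Mw w), if (∀ p ∈ pr w, ¬ ∃ h ∈ H, p ∣ n ^ 2 + h) then (1 : ℝ) else 0 := by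
    intro H _
    rw [← exactH H w]
    rw [Finset.sum_ite, Finset.sum_const_zero, add_zero, Finset.sum_const, nsmul_eq_mul, mul_one]
  rw [Finset.sum_congr rfl h1, Finset.sum_comm]
  apply Finset.sum_congr rfl
  intro n _
  rw [Finset.sum_ite, Finset.sum_const_zero, add_zero, Finset.sum_const, nsmul_eq_mul, mul_one,
    ← Finset.card_powersetCard]
  congr 2
  ext H
  rw [mem_filter, mem_powersetCard, mem_powersetCard]
  constructor
  · rintro ⟨⟨a1, a2⟩, a3⟩
    exact ⟨fun h hh => mem_filter.2 ⟨a1 hh, fun p hp hd => a3 p hp ⟨h, hh, hd⟩⟩, a2⟩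
  · rintro ⟨a1, a2⟩
    refine ⟨⟨fun h hh => (mem_filter.1 (a1 hh)).1, a2⟩, ?_⟩
    rintro p hp ⟨h, hh, hd⟩
    exact (mem_filter.1 (a1 hh)).2 p hp hd

/-- bounds for `choose` -/
lemma choose_bounds (N k : ℕ) (x M : ℝ) (h : |(N : ℝ) - x| ≤ M) (hx : M + k ≤ x) :
    (x - M - k) ^ k / k.factorial ≤ (N.choose k : ℝ) ∧
      (N.choose k : ℝ) ≤ (x + M) ^ k / k.factorial := by
  obtain ⟨h1, h2⟩ := abs_le.1 h
  have hkf : (0 : ℝ) < k.factorial := by exact_mod_cast Nat.factorial_pos k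
  constructor
  · rw [div_le_iff₀ hkf]
    have h3 := Nat.pow_sub_le_descFactorial N k
    have h4 : (N.choose k : ℝ) * k.factorial = (N.descFactorial k : ℝ) := by
      rw [Nat.descFactorial_eq_factorial_mul_choose]
      push_cast
      ring
    rw [h4]
    have hkN : k ≤ N + 1 := by
      have : (k : ℝ) ≤ N := by linarith
      have : k ≤ N := by exact_mod_cast this
      omega
    have h5 : (((N + 1 - k : ℕ) : ℝ)) ^ k ≤ (N.descFactorial k : ℝ) := by exact_mod_cast h3
    refine le_trans ?_ h5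
    apply pow_le_pow_left₀ (by linarith)
    rw [Nat.cast_sub hkN]
    push_cast
    linarith
  · refine (Nat.choose_le_pow_div k N).trans ?_
    apply div_le_div_of_nonneg_right _ hkf.le
    apply pow_le_pow_left₀ (Nat.cast_nonneg _)
    linarith

/-- upper bound for a power -/
lemma one_add_pow_le (k : ℕ) (x : ℝ) (h0 : 0 ≤ x) (h1 : x ≤ 1) : (1 + x) ^ k ≤ 1 + (2 ^ k - 1) * x := by
  induction k with
  | zero => simp
  | succ k ih =>
    have h3 : (1 : ℝ) ≤ 2 ^ k := one_le_pow₀ (by norm_num)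
    have h4 : x * x ≤ x := by nlinarith
    have h5 : (2 ^ k - 1) * (x * x) ≤ (2 ^ k - 1) * x := mul_le_mul_of_nonneg_left h4 (by linarith)
    calc (1 + x) ^ (k + 1) = (1 + x) ^ k * (1 + x) := pow_succ _ _
      _ ≤ (1 + (2 ^ k - 1) * x) * (1 + x) := by gcongr
      _ = 1 + x + (2 ^ k - 1) * x + (2 ^ k - 1) * (x * x) := by ring
      _ ≤ 1 + (2 ^ (k + 1) - 1) * x := by
        rw [pow_succ]
        linarith

/-- **The small primes.** -/
theorem t_SMALL : S_SMALL := by
  intro k w η hη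
  obtain ⟨M, hM⟩ : ∃ M, M = Mw w := ⟨_, rfl⟩
  have hMpos : 0 < M := by rw [hM]; exact Mw_pos w
  have hMr : (0 : ℝ) < M := by exact_mod_cast hMpos
  obtain ⟨δ, hδ⟩ : ∃ δ : ℝ, δ = min 1 (η / (2 ^ k + k)) := ⟨_, rfl⟩
  have hδ0 : 0 < δ := by rw [hδ]; positivity
  have hδ1 : δ ≤ 1 := by rw [hδ]; exact min_le_left _ _
  have hδη : δ * (2 ^ k + k) ≤ η := by
    have : δ ≤ η / (2 ^ k + k) := by rw [hδ]; exact min_le_right _ _
    rwa [le_div_iff₀ (by positivity)] at this
  have hW := V1_pos w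
  obtain ⟨T0, hT0⟩ : ∃ T0 : ℕ, (M + k + 1) / (δ * V1 w) ≤ (T0 : ℝ) := exists_nat_ge _
  refine ⟨T0, ?_⟩
  intro T hT
  have hTr : (M + k + 1) / (δ * V1 w) ≤ (T : ℝ) := hT0.trans (by exact_mod_cast hT)
  obtain ⟨x, hx⟩ : ∃ x : ℝ, x = T * V1 w := ⟨_, rfl⟩
  rw [← hx]
  have hxM : (M : ℝ) + k ≤ δ * x := by
    rw [hx]
    rw [div_le_iff₀ (mul_pos hδ0 hW)] at hTr
    have h1 : (T : ℝ) * (δ * V1 w) = δ * (T * V1 w) := by ring
    linarith
  have hMk : (0 : ℝ) < (M : ℝ) + k := by positivity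
  have hx0 : 0 < x := by
    by_contra hcon
    rw [not_lt] at hcon
    have : δ * x ≤ 0 := mul_nonpos_of_nonneg_of_nonpos hδ0.le hcon
    linarith
  have hxx : (M : ℝ) + k ≤ x := by nlinarith
  have hkf : (0 : ℝ) < k.factorial := by exact_mod_cast Nat.factorial_pos k
  have hsum := sum_sets w k T
  rw [← hM] at hsum
  have hb : ∀ n ∈ range M, (x - M - k) ^ k / k.factorial ≤
      ((((Icc 1 T).filter (fun h => ∀ p ∈ pr w, ¬ p ∣ n ^ 2 + h)).card.choose k : ℕ) : ℝ) ∧
      ((((Icc 1 T).filter (fun h => ∀ p ∈ pr w, ¬ p ∣ n ^ 2 + h)).card.choose k : ℕ) : ℝ) ≤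
        (x + M) ^ k / k.factorial := by
    intro n _
    apply choose_bounds
    · have := window w (n ^ 2) T
      rw [← hM, ← hx] at this
      exact this
    · exact hxx
  have hlo : (M : ℝ) * ((x - M - k) ^ k / k.factorial) ≤ M *
      ∑ H ∈ powersetCard k (Icc 1 T), VH H w := by
    rw [hsum]
    have := Finset.card_nsmul_le_sum (range M) (fun n =>
      ((((Icc 1 T).filter (fun h => ∀ p ∈ pr w, ¬ p ∣ n ^ 2 + h)).card.choose k : ℕ) : ℝ)) _
      (fun m hm => (hb m hm).1)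
    rwa [card_range, nsmul_eq_mul] at this
  have hup : (M : ℝ) * ∑ H ∈ powersetCard k (Icc 1 T), VH H w ≤
      M * ((x + M) ^ k / k.factorial) := by
    rw [hsum]
    have := Finset.sum_le_card_nsmul (range M) (fun n =>
      ((((Icc 1 T).filter (fun h => ∀ p ∈ pr w, ¬ p ∣ n ^ 2 + h)).card.choose k : ℕ) : ℝ)) _
      (fun m hm => (hb m hm).2)
    rwa [card_range, nsmul_eq_mul] at this
  have hlo' := le_of_mul_le_mul_left hlo hMr
  have hup' := le_of_mul_le_mul_left hup hMr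
  have hk0 : (0 : ℝ) ≤ k := Nat.cast_nonneg k
  have hMδ : (M : ℝ) / x ≤ δ := by
    rw [div_le_iff₀ hx0]
    linarith
  have hMkδ : ((M : ℝ) + k) / x ≤ δ := by
    rw [div_le_iff₀ hx0]
    linarith
  have hl : (1 - η) * (x ^ k / k.factorial) ≤ ∑ H ∈ powersetCard k (Icc 1 T), VH H w := by
    refine le_trans ?_ hlo'
    rw [← mul_div_assoc]
    apply div_le_div_of_nonneg_right _ hkf.le
    have h1 : x - M - k = x * (1 + -(((M : ℝ) + k) / x)) := by
      field_simp
      ring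
    rw [h1, mul_pow, mul_comm (1 - η)]
    apply mul_le_mul_of_nonneg_left _ (by positivity)
    have h2 := one_add_mul_le_pow (a := -(((M : ℝ) + k) / x)) (by linarith) k
    refine le_trans ?_ h2
    have h3 : (k : ℝ) * (((M : ℝ) + k) / x) ≤ k * δ := by gcongr
    have h4 : (0 : ℝ) < 2 ^ k := by positivity
    have h5 : k * δ ≤ δ * (2 ^ k + k) := by nlinarith
    linarith
  have hu : ∑ H ∈ powersetCard k (Icc 1 T), VH H w ≤ (1 + η) * (x ^ k / k.factorial) := by
    refine le_trans hup' ?_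
    rw [← mul_div_assoc]
    apply div_le_div_of_nonneg_right _ hkf.le
    have h1 : x + M = x * (1 + (M : ℝ) / x) := by
      field_simp
    rw [h1, mul_pow, mul_comm (1 + η)]
    apply mul_le_mul_of_nonneg_left _ (by positivity)
    have h2 := one_add_pow_le k ((M : ℝ) / x) (by positivity) (by linarith)
    refine h2.trans ?_
    have h6 : (1 : ℝ) ≤ 2 ^ k := one_le_pow₀ (by norm_num)
    have h3 : (2 ^ k - 1) * ((M : ℝ) / x) ≤ (2 ^ k - 1) * δ :=
      mul_le_mul_of_nonneg_left hMδ (by linarith)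
    have h5 : (2 ^ k - 1) * δ ≤ δ * (2 ^ k + k) := by nlinarith
    linarith
  rw [abs_le]
  constructor
  · linarith
  · linarith

end Pool.Agent.Y681.SQ
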